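import Pool.Agent.W289.ZS.Stm

/-!
Part G5 of the project ZS: final assembly.
-/

namespace W919.ZS

open Finset W289.ZS

universe u

theorem final (hT : TaskTau.{u}) (hG : TaskGroup.{u}) (hR : TaskRealize.{u})
    (hMain : TaskMain.{0, u}) : TaskResult.{u} := by
  classical
  intro G _ _ g
  obtain ⟨hPr, hC, hN⟩ := hG G
  let s : (Ix G → Subgroup G) → ℕ := fun v => (univ.filter (fun k => tau G (g k) = v)).card
  have hcnt : cnt (univ.image (tau G)) s = Nat.card G := by
    have h := Finset.card_eq_sum_card_fiberwise (f := fun k => tau G (g k)) (s := univ)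
      (t := univ.image (tau G)) (by intro k _; simp)
    rw [Finset.card_univ, Fintype.card_fin] at h
    exact h.symm
  obtain ⟨hTT, -⟩ := hMain (Ix G) (Subgroup G) (DG G) univ (univ.image (tau G)) (tau G 1) hPr hC
  obtain ⟨r, hr⟩ := hTT s (by rw [hcnt]; exact hN)
  obtain ⟨F, hF1, hF2, -⟩ := hR G _ g s _ (fun v => rfl) hr
  have h1 : 0 < (F (tau G 1)).card := by
    have := hF1 (tau G 1)
    rw [Pi.add_apply, Pi.single_eq_same] at this
    omega
  obtain ⟨K, hK⟩ := Finset.card_pos.1 h1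
  obtain ⟨a, ha, hgood⟩ := hF2 _ K hK
  have hz := (hT G).2.1 a 1 ha
  have ha1 : a = 1 := by simpa using hz
  subst ha1
  obtain ⟨h2, ⟨l, hl, hl2, hl3⟩, h4⟩ := hgood
  refine ⟨K, h2, ⟨l, hl, hl2, by simpa using hl3⟩, by simpa using h4⟩

end W919.ZS
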